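import Pool.Agent.H345R2.AP.Uniform

/-! Assume RH.  In a vertical arithmetic progression of `K ≥ β ^ θ` points above height `β`,
at most a proportion `1 / (2 θ) + ε` of the points (zeros counted with multiplicity) are zeros of
the Riemann zeta function. -/

set_option autoImplicit false

namespace Pool.Agent.Results.MP_0ec205_nt.ProgressionHalf

open Complex

theorem result (hRH : RiemannHypothesis) (α : ℝ) (hα : 0 < α) (θ : ℝ) (hθ0 : 0 < θ)
    (hθ1 : θ ≤ 1) (ε : ℝ) (hε : 0 < ε) :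
    ∃ K0 : ℕ, ∀ β : ℝ, 0 ≤ β → ∀ K : ℕ, K0 ≤ K → β ^ θ ≤ K →
      ∑ k ∈ Finset.Icc 1 K,
        (analyticOrderNatAt riemannZeta (1 / 2 + ((β + α * k : ℝ) : ℂ) * I) : ℝ) ≤
        (1 / (2 * θ) + ε) * K := by
  have hRHs : SP.RHs := by
    intro s h0 h1 hz
    refine hRH s hz ?_ ?_
    · rintro ⟨n, hn⟩
      rw [hn] at h0
      simp at h0
      have : (0 : ℝ) ≤ n := n.cast_nonneg
      linarith
    · rintro rfl
      simp at h1
  obtain ⟨K0, hK0⟩ := H345R2.AP.uniform_ap hRHs α hα θ hθ0 hθ1 ε hε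
  refine ⟨K0, fun β hβ K hK hβK => ?_⟩
  have h := hK0 β hβ K hK hβK
  have e : ∀ k : ℕ, (H345R2.AP.mz (β + α * k) : ℝ) =
      (analyticOrderNatAt riemannZeta (1 / 2 + ((β + α * k : ℝ) : ℂ) * I) : ℝ) := by
    intro k
    unfold H345R2.AP.mz
    rw [mul_comm I]
  simpa only [e] using h

end Pool.Agent.Results.MP_0ec205_nt.ProgressionHalf
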