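import Pool.Agent.H452R4.LI.Fin
import Pool.Agent.H452R4.LI.GI
import Pool.Agent.H452R4.LI.SCH
import Pool.Agent.H452R4.LI.GAU
import Pool.Agent.H452R4.LI.MV
import Pool.Agent.H452R4.LI.BIL
import Pool.Agent.H452R4.LI.PES
import Pool.Agent.H452R4.LI.ZC
import Pool.Agent.H452R4.LI.COR

/-! Assume RH.  For every linear form with `m ≥ 2` nonzero real coefficients and arbitrary sets
`A 0, …, A (m - 1)` of positive ordinates of zeros of zeta up to `T`, each of positive relative
density, at most a proportion `1/2 + ε` of the tuples in `A 0 × ⋯ × A (m - 1)` is mapped by the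
form to an ordinate. -/

set_option autoImplicit false

namespace Pool.Agent.Results.MP_0ec205_nt.RelationsHalf

open Pool.Agent.H452R4.LI

theorem result (hRH : RiemannHypothesis) (m : ℕ) (hm : 2 ≤ m) (r : Fin m → ℝ)
    (hr : ∀ i, r i ≠ 0) (η ε : ℝ) (hη : 0 < η) (hε : 0 < ε) :
    ∃ T1 : ℝ, ∀ T : ℝ, T1 ≤ T → ∀ A : Fin m → Finset ℝ,
      (∀ i, ∀ γ ∈ A i, 0 < γ ∧ γ ≤ T ∧ riemannZeta (1 / 2 + Complex.I * (γ : ℂ)) = 0) →
      (∀ i, η * T * Real.log T ≤ (A i).card) →
      (((Fintype.piFinset A).filter (fun x : Fin m → ℝ =>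
        riemannZeta (1 / 2 + Complex.I * ((∑ i, r i * x i : ℝ) : ℂ)) = 0)).card : ℝ) ≤
        (1 / 2 + ε) * ∏ i, ((A i).card : ℝ) := by
  have hRHs : RH0 := by
    intro s h0 h1 hz
    refine hRH s hz ?_ ?_
    · rintro ⟨n, hn⟩
      rw [hn] at h0
      simp at h0
      have : (0 : ℝ) ≤ n := n.cast_nonneg
      linarith
    · rintro rfl
      simp at h1
  exact cor (gen gi (bil (mv sch gau)) plain exc spl) zc hRHs m r η ε hm hr hη hε

end Pool.Agent.Results.MP_0ec205_nt.RelationsHalf
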